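import Mathlib

namespace Pool.Agent.Results.MP_eb9ef7_pr.Selections

open MeasureTheory Filter Topology Metric Set ENNReal BoundedContinuousFunction

/-- random closed set: closed values and Effros measurability -/
def RCS {Ω E : Type} [MeasurableSpace Ω] [TopologicalSpace E] (X : Ω → Set E) : Prop :=
  (∀ ω, IsClosed (X ω)) ∧ ∀ G, IsOpen G → MeasurableSet {ω | (X ω ∩ G).Nonempty}

noncomputable def st (d : ℕ → ℝ≥0∞) (e : ℝ) (C : ℕ → Prop) : ℕ :=
  sInf {i | d i < ENNReal.ofReal e ∧ C i}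

lemma sInf_iff (S : Set ℕ) (a : ℕ) :
    sInf S = a ↔ (a ∈ S ∧ ∀ b, b < a → b ∉ S) ∨ (a = 0 ∧ ∀ i, i ∉ S) := by
  constructor
  · rintro rfl
    rcases S.eq_empty_or_nonempty with rfl | h
    · simp
    · exact Or.inl ⟨Nat.sInf_mem h, fun b hb => Nat.notMem_of_lt_sInf hb⟩
  · rintro (⟨h1, h2⟩ | ⟨rfl, h⟩)
    · exact le_antisymm (Nat.sInf_le h1) (not_lt.mp fun h => h2 _ h (Nat.sInf_mem ⟨a, h1⟩))
    · rw [eq_empty_iff_forall_notMem.mpr h, Nat.sInf_empty]

lemma st_meas (e : ℝ) (C : ℕ → Prop) (a : ℕ) : MeasurableSet {d | st d e C = a} := by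
  have h : ∀ i, Measurable fun d : ℕ → ℝ≥0∞ => d i < ENNReal.ofReal e ∧ C i := fun i =>
    (measurableSet_setOfPred.mp (measurableSet_lt (measurable_pi_apply i) measurable_const)).and
      measurable_const
  simp only [st, sInf_iff, mem_ofPred_eq]
  exact measurableSet_setOfPred.mpr (((h a).and (Measurable.forall fun b =>
    measurable_const.imp (h b).not)).or (measurable_const.and (Measurable.forall fun i => (h i).not)))

lemma st_loc (d : ℕ → ℝ≥0∞) (e : ℝ) (C : ℕ → Prop) (h : ∀ i, d i ≠ ENNReal.ofReal e)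
    (hn : ∃ i, d i < ENNReal.ofReal e ∧ C i) : ∀ᶠ d' in 𝓝 d, st d' e C = st d e C := by
  have h1 := Nat.sInf_mem (s := {i | d i < ENNReal.ofReal e ∧ C i}) hn
  have h2 : ∀ᶠ d' in 𝓝 d, d' (st d e C) < ENNReal.ofReal e :=
    (continuous_apply _).continuousAt.eventually_lt continuousAt_const h1.1
  have h3 : ∀ᶠ d' in 𝓝 d, ∀ b ∈ Finset.range (st d e C), C b → ENNReal.ofReal e < d' b := by
    rw [Filter.eventually_all_finset]
    intro b hb
    by_cases hc : C b
    · have : ENNReal.ofReal e < d b := lt_of_le_of_ne (not_lt.mp fun hl =>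
        Nat.notMem_of_lt_sInf (Finset.mem_range.mp hb) ⟨hl, hc⟩) (h b).symm
      exact (continuousAt_const.eventually_lt (continuous_apply b).continuousAt this).mono
        fun _ h _ => h
    · exact Eventually.of_forall fun _ h => absurd h hc
  filter_upwards [h2, h3] with d' a1 a2
  exact (sInf_iff _ _).mpr (Or.inl ⟨⟨a1, h1.2⟩, fun b hb hm =>
    lt_asymm hm.1 (a2 b (Finset.mem_range.mpr hb) hm.2)⟩)

variable {E : Type} [MetricSpace E] (x : ℕ → E) (ε : ℕ → ℝ)

noncomputable def idx (d : ℕ → ℝ≥0∞) : ℕ → ℕ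
  | 0 => st d (ε 0) fun _ => True
  | k + 1 => st d (ε (k + 1)) fun i => dist (x i) (x (idx d k)) < ε k + ε (k + 1)

lemma idx_meas (k : ℕ) : Measurable fun d => idx x ε d k := by
  refine measurable_to_countable' ?_
  induction k with
  | zero => exact fun a => st_meas _ _ a
  | succ k ih =>
    intro a
    have : (fun d => idx x ε d (k + 1)) ⁻¹' {a} = ⋃ j, ((fun d => idx x ε d k) ⁻¹' {j} ∩
        {d | st d (ε (k + 1)) (fun i => dist (x i) (x j) < ε k + ε (k + 1)) = a}) := by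
      ext d
      simp [idx]
    rw [this]
    exact MeasurableSet.iUnion fun j => (ih j).inter (st_meas _ _ a)

noncomputable def D (F : Set E) : ℕ → ℝ≥0∞ := fun i => infEDist (x i) F

variable {x ε} (hx : DenseRange x) (h0 : ∀ k, 0 < ε k) (h2 : ∀ k, 2 * ε (k + 1) ≤ ε k)
include hx h0

lemma ex0 {F : Set E} (hF : F.Nonempty) : ∃ i, D x F i < ENNReal.ofReal (ε 0) ∧ True := by
  obtain ⟨y, hy⟩ := hF
  obtain ⟨i, hi⟩ := hx.exists_dist_lt y (h0 0)
  exact ⟨i, lt_of_le_of_lt (infEDist_le_edist_of_mem hy)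
    (by rwa [edist_lt_ofReal, dist_comm]), trivial⟩

lemma exS {F : Set E} (k j : ℕ) (h : D x F j < ENNReal.ofReal (ε k)) :
    ∃ i, D x F i < ENNReal.ofReal (ε (k + 1)) ∧ dist (x i) (x j) < ε k + ε (k + 1) := by
  obtain ⟨y, hy, h1⟩ := infEDist_lt_iff.mp h
  obtain ⟨i, hi⟩ := hx.exists_dist_lt y (h0 (k + 1))
  rw [edist_lt_ofReal] at h1
  exact ⟨i, lt_of_le_of_lt (infEDist_le_edist_of_mem hy) (by rwa [edist_lt_ofReal, dist_comm]),
    by linarith [dist_triangle_left (x i) (x j) y, dist_comm (x j) y]⟩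

lemma inv {F : Set E} (hF : F.Nonempty) (k : ℕ) :
    D x F (idx x ε (D x F) k) < ENNReal.ofReal (ε k) := by
  induction k with
  | zero => exact (Nat.sInf_mem (ex0 hx h0 hF)).1
  | succ k ih => exact (Nat.sInf_mem (exS hx h0 k _ ih)).1

lemma idx_loc {F : Set E} (hF : F.Nonempty) (h : ∀ i k, D x F i ≠ ENNReal.ofReal (ε k)) (k : ℕ) :
    ∀ᶠ d' in 𝓝 (D x F), idx x ε d' k = idx x ε (D x F) k := by
  induction k with
  | zero => exact st_loc _ _ _ (fun i => h i 0) (ex0 hx h0 hF)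
  | succ k ih =>
    filter_upwards [ih, st_loc _ _ _ (fun i => h i (k + 1)) (exS hx h0 k _ (inv hx h0 hF k))]
      with d' a1 a2
    rw [idx, a1, a2, idx]

include h2

lemma chain {F : Set E} (hF : F.Nonempty) (k m : ℕ) (hm : k ≤ m) :
    dist (x (idx x ε (D x F) m)) (x (idx x ε (D x F) k)) + 3 * ε m ≤ 3 * ε k := by
  induction m, hm using Nat.le_induction with
  | base => simp
  | succ m hm ih =>
    have : dist (x (idx x ε (D x F) (m + 1))) (x (idx x ε (D x F) m)) < ε m + ε (m + 1) :=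
      (Nat.sInf_mem (exS hx h0 m _ (inv hx h0 hF m))).2
    linarith [dist_triangle (x (idx x ε (D x F) (m + 1))) (x (idx x ε (D x F) m))
      (x (idx x ε (D x F) k)), h2 m]

omit hx in
lemma eps_lim : Tendsto ε atTop (𝓝 0) := by
  have : ∀ k, ε k ≤ ε 0 * (1 / 2) ^ k := by
    intro k
    induction k with
    | zero => simp
    | succ k ih => rw [pow_succ]; linarith [h2 k]
  refine squeeze_zero (fun k => (h0 k).le) this ?_
  simpa using (tendsto_pow_atTop_nhds_zero_of_lt_one (r := (1 / 2 : ℝ)) (by norm_num)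
    (by norm_num)).const_mul (ε 0)

omit hx h0 h2 in
noncomputable def sel [Nonempty E] (x : ℕ → E) (ε : ℕ → ℝ) (d : ℕ → ℝ≥0∞) : E :=
  limUnder atTop fun k => x (idx x ε d k)

lemma sel_dist [Nonempty E] [CompleteSpace E] {F : Set E} (hF : F.Nonempty) (k : ℕ) :
    dist (sel x ε (D x F)) (x (idx x ε (D x F) k)) ≤ 3 * ε k := by
  have hc : CauchySeq fun k => x (idx x ε (D x F) k) := by
    refine cauchySeq_of_le_tendsto_0' (fun k => 3 * ε k) (fun n m h => ?_)
      (by simpa using (eps_lim h0 h2).const_mul 3)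
    rw [dist_comm]
    linarith [chain hx h0 h2 hF n m h, h0 m]
  refine le_of_tendsto (hc.tendsto_limUnder.dist tendsto_const_nhds) ?_
  filter_upwards [eventually_ge_atTop k] with m hm
  linarith [chain hx h0 h2 hF k m hm, h0 m]

lemma sel_mem [Nonempty E] [CompleteSpace E] {F : Set E} (hF : F.Nonempty) (hc : IsClosed F) :
    sel x ε (D x F) ∈ F := by
  refine hc.closure_subset (Metric.mem_closure_iff.mpr fun r hr => ?_)
  obtain ⟨k, hk⟩ := ((eps_lim h0 h2).eventually (gt_mem_nhds (show 0 < r / 4 by linarith))).exists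
  obtain ⟨y, hy, h1⟩ := infEDist_lt_iff.mp (inv hx h0 hF k)
  rw [edist_lt_ofReal] at h1
  have h3 := sel_dist hx h0 h2 hF k
  exact ⟨y, hy, by linarith [dist_triangle (sel x ε (D x F)) (x (idx x ε (D x F) k)) y]⟩

omit hx h0 h2

lemma D_meas {Ω : Type} [MeasurableSpace Ω] {X : Ω → Set E} (h : RCS X) (y : E) :
    Measurable fun ω => infEDist y (X ω) := by
  refine measurable_of_Iio fun r => ?_
  have : (fun ω => infEDist y (X ω)) ⁻¹' Iio r = {ω | (X ω ∩ Metric.eball y r).Nonempty} := by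
    ext ω
    simp [infEDist_lt_iff, Set.Nonempty, edist_comm]
  rw [this]
  exact h.2 _ isOpen_eball

lemma port {Ω : ℕ → Type} {Ω' : Type} [∀ n, MeasurableSpace (Ω n)] [MeasurableSpace Ω']
    (P : ∀ n, Measure (Ω n)) [∀ n, IsProbabilityMeasure (P n)] (P' : Measure Ω')
    [IsProbabilityMeasure P'] (Z : ∀ n, Ω n → ℕ → ℝ≥0∞) (W : Ω' → ℕ → ℝ≥0∞)
    (h : ∀ m, TendstoInDistribution (fun n ω (i : Fin m) => Z n ω i) atTop
      (fun ω (i : Fin m) => W ω i) P P') (U : Set (ℕ → ℝ≥0∞)) (hU : IsOpen U) :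
    P' (W ⁻¹' U) ≤ liminf (fun n => P n (Z n ⁻¹' U)) atTop := by
  let V : ∀ m, Set (Fin m → ℝ≥0∞) := fun m =>
    interior {v | ∀ d : ℕ → ℝ≥0∞, (∀ i : Fin m, d i = v i) → d ∈ U}
  have hm : Monotone fun m => (fun ω (i : Fin m) => W ω i) ⁻¹' V m := by
    intro m m' hle ω hω
    have a : (fun (v : Fin m' → ℝ≥0∞) (i : Fin m) => v (i.castLE hle)) ⁻¹' V m ⊆ V m' :=
      interior_maximal (fun v hv d hd => interior_subset hv d fun i => hd (i.castLE hle))
        (isOpen_interior.preimage (by fun_prop))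
    exact a hω
  have hc : W ⁻¹' U ⊆ ⋃ m, (fun ω (i : Fin m) => W ω i) ⁻¹' V m := by
    intro ω hω
    obtain ⟨I, u, h1, h3⟩ := isOpen_pi_iff.mp hU _ hω
    suffices a : (⋂ i : Fin (I.sup id + 1), {v : Fin (I.sup id + 1) → ℝ≥0∞ |
        (i : ℕ) ∈ I → v i ∈ u i}) ⊆ V (I.sup id + 1) from
      mem_iUnion.mpr ⟨I.sup id + 1, a (mem_iInter.mpr fun i hi => (h1 i hi).2)⟩
    refine interior_maximal (fun v hv d hd => h3 fun a ha => ?_)
      (isOpen_iInter_of_finite fun i => ?_)
    · have hl : a < I.sup id + 1 := Nat.lt_succ_of_le (Finset.le_sup (f := id) ha)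
      exact (hd ⟨a, hl⟩).symm ▸ mem_iInter.mp hv ⟨a, hl⟩ ha
    · by_cases hi : (i : ℕ) ∈ I
      · simp only [hi, forall_const]
        exact (h1 i hi).1.preimage (continuous_apply i)
      · simp [hi]
  refine le_trans (measure_mono hc) ?_
  rw [hm.measure_iUnion]
  refine iSup_le fun m => ?_
  have := ProbabilityMeasure.le_liminf_measure_open_of_tendsto (h m).tendsto
    (G := V m) isOpen_interior
  simp only [ProbabilityMeasure.coe_mk] at this
  rw [Measure.map_apply_of_aemeasurable (h m).aemeasurable_limit isOpen_interior.measurableSet]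
    at this
  refine le_trans this (liminf_le_liminf (Eventually.of_forall fun n => ?_))
  rw [Measure.map_apply_of_aemeasurable ((h m).forall_aemeasurable n) isOpen_interior.measurableSet]
  exact measure_mono fun ω hω => interior_subset hω _ fun _ => rfl

theorem result {E : Type} [NormedAddCommGroup E] [NormedSpace ℝ E] [CompleteSpace E]
    [TopologicalSpace.SeparableSpace E] [MeasurableSpace E] [BorelSpace E]
    {Ω : ℕ → Type} {Ω' : Type} [∀ n, MeasurableSpace (Ω n)] [MeasurableSpace Ω']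
    (P : ∀ n, Measure (Ω n)) [∀ n, IsProbabilityMeasure (P n)] (P' : Measure Ω')
    [IsProbabilityMeasure P'] (X : ∀ n, Ω n → Set E) (Y : Ω' → Set E)
    (hX : ∀ n, RCS (X n)) (hY : RCS Y) (neX : ∀ n, ∀ᵐ ω ∂P n, (X n ω).Nonempty)
    (neY : ∀ᵐ ω ∂P', (Y ω).Nonempty)
    (hconv : ∀ (k : ℕ) (x : Fin k → E), TendstoInDistribution
      (fun n ω i => infEDist (x i) (X n ω)) atTop (fun ω i => infEDist (x i) (Y ω)) P P') :
    ∃ (ξ : ∀ n, Ω n → E) (η : Ω' → E), (∀ n, Measurable (ξ n) ∧ ∀ᵐ ω ∂P n, ξ n ω ∈ X n ω) ∧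
      (Measurable η ∧ ∀ᵐ ω ∂P', η ω ∈ Y ω) ∧
      ∀ g : E →ᵇ ℝ, Tendsto (fun n => ∫ ω, g (ξ n ω) ∂P n) atTop (𝓝 (∫ ω, g (η ω) ∂P')) := by
  obtain ⟨x, hx⟩ := TopologicalSpace.exists_dense_seq E
  have : SecondCountableTopology E := UniformSpace.secondCountable_of_separable E
  have hbad : {r : ℝ | 0 < r ∧ ∃ i, 0 < P' {ω | infEDist (x i) (Y ω) = ENNReal.ofReal r}}.Countable := by
    refine ((countable_iUnion fun i => Measure.countable_meas_level_set_pos (μ := P')
      (D_meas hY (x i))).image ENNReal.toReal).mono ?_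
    rintro r ⟨hr, i, hi⟩
    exact ⟨_, mem_iUnion.mpr ⟨i, hi⟩, ENNReal.toReal_ofReal hr.le⟩
  have hε : ∀ k : ℕ, ∃ r : ℝ, ((1 / 4) ^ k < r ∧ r < 2 * (1 / 4) ^ k) ∧
      ∀ i, P' {ω | infEDist (x i) (Y ω) = ENNReal.ofReal r} = 0 := by
    intro k
    have hp : (0 : ℝ) < (1 / 4) ^ k := by positivity
    obtain ⟨r, h1, h3⟩ := (hbad.dense_compl ℝ).exists_mem_open
      (isOpen_Ioo (a := (1 / 4) ^ k) (b := 2 * (1 / 4) ^ k)) (nonempty_Ioo.mpr (by linarith))
    refine ⟨r, h3, fun i => ?_⟩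
    by_contra hne
    exact h1 ⟨hp.trans h3.1, i, pos_iff_ne_zero.mpr hne⟩
  choose ε e1 e2 using hε
  have h0 : ∀ k, 0 < ε k := fun k => lt_trans (by positivity) (e1 k).1
  have h2 : ∀ k, 2 * ε (k + 1) ≤ ε k := fun k => by
    have := (e1 (k + 1)).2
    rw [pow_succ] at this
    linarith [(e1 k).1]
  have ms : Measurable (sel x ε) := (StronglyMeasurable.limUnder fun k =>
    ((measurable_of_countable x).comp (idx_meas x ε k)).stronglyMeasurable).measurable
  have mX : ∀ n, Measurable fun ω => sel x ε (D x (X n ω)) := fun n =>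
    ms.comp (measurable_pi_lambda _ fun i => D_meas (hX n) (x i))
  have mY : Measurable fun ω => sel x ε (D x (Y ω)) :=
    ms.comp (measurable_pi_lambda _ fun i => D_meas hY (x i))
  refine ⟨_, _, fun n => ⟨mX n, (neX n).mono fun ω h => sel_mem hx h0 h2 h ((hX n).1 ω)⟩,
    ⟨mY, neY.mono fun ω h => sel_mem hx h0 h2 h (hY.1 ω)⟩, fun g => ?_⟩
  have key := tendsto_of_forall_isOpen_le_liminf_nat'
    (μ := ⟨P'.map _, Measure.isProbabilityMeasure_map mY.aemeasurable⟩)
    (μs := fun n => ⟨(P n).map _, Measure.isProbabilityMeasure_map (mX n).aemeasurable⟩) ?_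
  · have := ProbabilityMeasure.tendsto_iff_forall_integral_tendsto.mp key g
    simp only [ProbabilityMeasure.coe_mk] at this
    rw [integral_map mY.aemeasurable g.continuous.aestronglyMeasurable] at this
    refine this.congr fun n => integral_map (mX n).aemeasurable g.continuous.aestronglyMeasurable
  intro G hG
  simp only [ProbabilityMeasure.coe_mk, Measure.map_apply (mX _) hG.measurableSet,
    Measure.map_apply mY hG.measurableSet]
  refine le_trans (measure_mono_ae ?_) (le_trans (port P P' (fun n ω => D x (X n ω))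
    (fun ω => D x (Y ω)) (fun m => hconv m fun i => x i)
    (interior {d | ∃ k, closedBall (x (idx x ε d k)) (3 * ε k) ⊆ G}) isOpen_interior)
    (liminf_le_liminf (Eventually.of_forall fun n => measure_mono_ae ?_)))
  · have : ∀ᵐ ω ∂P', ∀ i k, D x (Y ω) i ≠ ENNReal.ofReal (ε k) :=
      ae_all_iff.mpr fun i => ae_all_iff.mpr fun k => by
        rw [ae_iff]
        simpa [D] using e2 k i
    filter_upwards [this, neY] with ω h1 h3 h4
    obtain ⟨r, hr, hb⟩ := Metric.isOpen_iff.mp hG _ h4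
    obtain ⟨k, hk⟩ := ((eps_lim h0 h2).eventually (gt_mem_nhds (show 0 < r / 6 by linarith))).exists
    refine mem_interior_iff_mem_nhds.mpr ((idx_loc hx h0 h3 h1 k).mono fun d hd => ⟨k, ?_⟩)
    rw [hd]
    refine subset_trans (fun y hy => ?_) hb
    rw [mem_closedBall] at hy
    rw [mem_ball]
    linarith [dist_triangle_right y (sel x ε (D x (Y ω))) (x (idx x ε (D x (Y ω)) k)),
      sel_dist hx h0 h2 h3 k]
  · filter_upwards [neX n] with ω h3 h4
    obtain ⟨k, hk⟩ := interior_subset h4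
    exact hk (sel_dist hx h0 h2 h3 k)

end Pool.Agent.Results.MP_eb9ef7_pr.Selections
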